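import Pool.Agent.K1H2.BI.Stm

set_option autoImplicit false

/-! One-step inequalities of branching internal DLA: `t_ONE`. -/

namespace Pool.Agent.K1H94.BI

open Pool.Agent.K1H2.BI
open MeasureTheory ProbabilityTheory Filter
open scoped ENNReal Topology BigOperators

universe u

lemma core (ν : PMF ℕ) (F : Inst → ℝ≥0∞) (hF : Measurable F) (B : ℝ≥0∞)
    (h : ∀ u : ℝ, ∫⁻ l, F (l, u) ∂(kids ν).toMeasure ≤ B) : ∫⁻ i, F i ∂(law ν) ≤ B := by
  unfold law
  rw [lintegral_prod_symm _ hF.aemeasurable]
  calc ∫⁻ u in Set.Icc (0 : ℝ) 1, ∫⁻ l, F (l, u) ∂(kids ν).toMeasure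
      ≤ ∫⁻ _u in Set.Icc (0 : ℝ) 1, B := lintegral_mono fun u => h u
    _ = B := by
      rw [lintegral_const]
      simp

lemma lint_le (ν : PMF ℕ) (g h : List Dir → ℝ) (hle : ∀ l, g l ≤ h l) (h0 : ∀ l, 0 ≤ h l)
    (hint : Integrable h (kids ν).toMeasure) :
    ∫⁻ l, ENNReal.ofReal (g l) ∂(kids ν).toMeasure ≤
      ENNReal.ofReal (∫ l, h l ∂(kids ν).toMeasure) := by
  rw [ofReal_integral_eq_lintegral_ofReal hint (Eventually.of_forall h0)]
  exact lintegral_mono fun l => ENNReal.ofReal_le_ofReal (hle l)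

lemma meas_F (hM : Measurable fun p : State × Inst => event p.1 p.2) (s : State)
    (f : State → ℝ) : Measurable fun i : Inst => ENNReal.ofReal (f (event s i)) := by
  have h1 : Measurable fun i : Inst => event s i :=
    hM.comp (measurable_const.prodMk measurable_id)
  have h2 : Measurable f := measurable_from_top
  exact ENNReal.measurable_ofReal.comp (h2.comp h1)

lemma nsq_step (x : Site) (e : Dir) :
    nsq (x + stepOf e) = nsq x + 2 * (x e.1 : ℝ) * (if e.2 then 1 else -1) + 1 := by
  obtain ⟨i, b⟩ := e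
  unfold nsq stepOf
  fin_cases i <;> cases b <;> simp [Fin.sum_univ_three] <;> ring

lemma sum_nsq (x : Site) : ∑ e : Dir, nsq (x + stepOf e) = 6 * nsq x + 6 := by
  simp_rw [nsq_step]
  rw [Fintype.sum_prod_type]
  simp [Fin.sum_univ_three]
  ring

lemma card_dir : (Finset.univ : Finset Dir).card = 6 := by
  simp [Finset.card_univ, Fintype.card_prod]

lemma phi_mean (b : ℝ) (x : Site) : (∑ e : Dir, phi b (x + stepOf e)) / 6 ≤ phi b x + 1 := by
  have h1 : ∑ e : Dir, phi b (x + stepOf e) ≤ ∑ e : Dir, nsq (x + stepOf e) :=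
    Finset.sum_le_sum fun e _ => min_le_left _ _
  have h2 : ∑ e : Dir, phi b (x + stepOf e) ≤ ∑ _e : Dir, b :=
    Finset.sum_le_sum fun e _ => min_le_right _ _
  rw [sum_nsq] at h1
  rw [Finset.sum_const, card_dir] at h2
  simp only [nsmul_eq_mul, Nat.cast_ofNat] at h2
  unfold phi at *
  rcases le_total (nsq x) b with h | h
  · rw [min_eq_left h]
    linarith
  · rw [min_eq_right h]
    linarith

lemma nsq_nonneg (x : Site) : 0 ≤ nsq x := Finset.sum_nonneg fun i _ => sq_nonneg _

lemma phi_nonneg {b : ℝ} (hb : 0 ≤ b) (x : Site) : 0 ≤ phi b x := le_min (nsq_nonneg x) hb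

lemma phi_le (b : ℝ) (x : Site) : phi b x ≤ b := min_le_right _ _

lemma list_sum_bounds (l : List Dir) (h : Dir → ℝ) (b : ℝ) (h0 : ∀ e, 0 ≤ h e)
    (h1 : ∀ e, h e ≤ b) : 0 ≤ (l.map h).sum ∧ (l.map h).sum ≤ l.length * b := by
  induction l with
  | nil => simp
  | cons e l ih =>
    simp only [List.map_cons, List.sum_cons, List.length_cons, Nat.cast_add, Nat.cast_one]
    have := h0 e
    have := h1 e
    constructor
    · linarith [ih.1]
    · linarith [ih.2]

lemma int_len (ν : PMF ℕ) (hs : Integrable (fun l : List Dir => (l.length : ℝ) ^ 2)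
    (kids ν).toMeasure) : Integrable (fun l : List Dir => (l.length : ℝ)) (kids ν).toMeasure := by
  refine Integrable.mono' (hs.add (integrable_const 1))
    (measurable_from_top.aestronglyMeasurable) (Eventually.of_forall fun l => ?_)
  rw [Real.norm_of_nonneg (Nat.cast_nonneg _), Pi.add_apply]
  nlinarith [sq_nonneg ((l.length : ℝ) - 1)]

lemma int_add3 {μ : Measure (List Dir)} {f g h : List Dir → ℝ} (hf : Integrable f μ)
    (hg : Integrable g μ) (hh : Integrable h μ) :
    Integrable (fun l => f l + (g l + h l)) μ ∧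
      ∫ l, (f l + (g l + h l)) ∂μ = ∫ l, f l ∂μ + (∫ l, g l ∂μ + ∫ l, h l ∂μ) := by
  have h1 : Integrable (fun l => g l + h l) μ := hg.add hh
  refine ⟨hf.add h1, ?_⟩
  rw [integral_add hf h1, integral_add hg hh]

lemma int_sub3 {μ : Measure (List Dir)} {f g h : List Dir → ℝ} (hf : Integrable f μ)
    (hg : Integrable g μ) (hh : Integrable h μ) :
    Integrable (fun l => f l - g l - h l) μ ∧
      ∫ l, (f l - g l - h l) ∂μ = ∫ l, f l ∂μ - ∫ l, g l ∂μ - ∫ l, h l ∂μ := by
  have h1 : Integrable (fun l => f l - g l) μ := hf.sub hg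
  refine ⟨h1.sub hh, ?_⟩
  rw [integral_sub h1 hh, integral_sub hf hg]

lemma pot_mean {R : ℝ} (hR : 0 ≤ R) (x : Site) (hx : len x ≤ R) :
    (∑ e : Dir, pot R (x + stepOf e)) / 6 = pot R x - 1 := by
  have h1 : nsq x ≤ R ^ 2 := by
    have h := Real.sqrt_le_left hR |>.1 hx
    exact h
  have h2 : ∀ e : Dir, pot R (x + stepOf e) = (R + 1) ^ 2 - nsq (x + stepOf e) := by
    intro e
    unfold pot
    refine max_eq_left ?_
    rw [nsq_step]
    have h3 : (x e.1 : ℝ) ^ 2 ≤ R ^ 2 := by
      refine le_trans ?_ h1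
      unfold nsq
      exact Finset.single_le_sum (f := fun i => (x i : ℝ) ^ 2) (fun i _ => sq_nonneg _)
        (Finset.mem_univ e.1)
    have h4 : |(x e.1 : ℝ)| ≤ R := abs_le_of_sq_le_sq h3 hR
    have h5 := abs_le.1 h4
    split_ifs <;> nlinarith [h5.1, h5.2]
  have h3 : pot R x = (R + 1) ^ 2 - nsq x := by
    unfold pot
    refine max_eq_left ?_
    nlinarith
  simp_rw [h2]
  rw [Finset.sum_sub_distrib, sum_nsq, Finset.sum_const, card_dir, h3]
  simp only [nsmul_eq_mul, Nat.cast_ofNat]
  ring

theorem t_ONE (hP : S_PATH) (hK : S_KIDS) (hM : S_MEAS.{u}) : S_ONE := by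
  intro ν hν
  obtain ⟨hvar, hi2, hm1, hv, hh⟩ := hK ν hν
  have hi1 := int_len ν hi2
  have hMe := hM.2.1
  have hiv : Integrable (fun l : List Dir => ((l.length : ℝ) - 1) ^ 2) (kids ν).toMeasure := by
    have e : (fun l : List Dir => ((l.length : ℝ) - 1) ^ 2) =
        fun l : List Dir => (l.length : ℝ) ^ 2 + ((-2) * (l.length : ℝ) + 1) := by
      funext l; ring
    rw [e]
    exact hi2.add ((hi1.const_mul _).add (integrable_const _))
  have hi3 : Integrable (fun l : List Dir => ((l.length : ℝ) - 1)) (kids ν).toMeasure :=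
    hi1.sub (integrable_const _)
  have hz : ∫ l : List Dir, ((l.length : ℝ) - 1) ∂(kids ν).toMeasure = 0 := by
    rw [integral_sub hi1 (integrable_const _), hm1]
    simp
  -- the quadratic part
  have hq : ∀ a : ℝ, Integrable (fun l : List Dir => (a + ((l.length : ℝ) - 1)) ^ 2)
      (kids ν).toMeasure ∧
      ∫ l : List Dir, (a + ((l.length : ℝ) - 1)) ^ 2 ∂(kids ν).toMeasure = a ^ 2 + var ν := by
    intro a
    have e : (fun l : List Dir => (a + ((l.length : ℝ) - 1)) ^ 2) =
        fun l : List Dir => a ^ 2 + (2 * a * ((l.length : ℝ) - 1) + ((l.length : ℝ) - 1) ^ 2) := by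
      funext l; ring
    rw [e]
    refine ⟨(integrable_const _).add ((hi3.const_mul _).add hiv), ?_⟩
    rw [(int_add3 (integrable_const _) (hi3.const_mul _) hiv).2, integral_const_mul, hz, hv]
    simp
  refine ⟨?_, ?_, ?_⟩
  · intro s c hs
    refine core ν _ (meas_F hMe s fun t => (S t - c) ^ 2) _ fun w => ?_
    refine (lint_le ν _ (fun l => ((S s - c) + ((l.length : ℝ) - 1)) ^ 2) ?_
      (fun l => sq_nonneg _) (hq _).1).trans ?_
    · intro l
      have h := (hP s (l, w) hs).2.2.2.1
      simp only at h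
      rw [h]
      apply le_of_eq
      ring
    · rw [(hq _).2, ENNReal.ofReal_add (sq_nonneg _) hvar.le]
  · refine ⟨var ν + 9, by linarith, fun s b n hs hb => ?_⟩
    refine core ν _ (meas_F hMe s fun t => (max (Y b t - ((n + 1 : ℕ) : ℝ)) 0) ^ 2) _ fun w => ?_
    set x := s.L.getD (pick s.L w) 0 with hx
    have hwho : ∀ l : List Dir, who s (l, w) = x := fun l => rfl
    set M : ℝ := max (Y b s - (n : ℝ)) 0 with hMd
    have hM0 : 0 ≤ M := le_max_right _ _
    set D : List Dir → ℝ := fun l => (l.map fun e => phi b (x + stepOf e)).sum - phi b x - 1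
      with hD
    have hb0 : 0 ≤ b := by linarith
    have hDi : Integrable D (kids ν).toMeasure :=
      ((hh fun e => phi b (x + stepOf e)).1.sub (integrable_const _)).sub (integrable_const _)
    have hDm : ∫ l, D l ∂(kids ν).toMeasure ≤ 0 := by
      have h1 : ∫ l, D l ∂(kids ν).toMeasure =
          (∑ e : Dir, phi b (x + stepOf e)) / 6 - phi b x - 1 := by
        simp only [hD]
        rw [(int_sub3 (hh fun e => phi b (x + stepOf e)).1 (integrable_const _)
          (integrable_const _)).2, (hh fun e => phi b (x + stepOf e)).2]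
        simp
      rw [h1]
      linarith [phi_mean b x]
    have hDb : ∀ l, (D l) ^ 2 ≤ ((l.length : ℝ) + 2) ^ 2 * b ^ 2 := by
      intro l
      obtain ⟨h1, h2⟩ := list_sum_bounds l (fun e => phi b (x + stepOf e)) b
        (fun e => phi_nonneg hb0 _) (fun e => phi_le b _)
      have h3 := phi_nonneg hb0 x
      have h4 := phi_le b x
      have h5 : 0 ≤ (l.length : ℝ) := Nat.cast_nonneg _
      have h6 : |D l| ≤ ((l.length : ℝ) + 2) * b := by
        rw [abs_le]
        constructor
        · simp only [hD]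
          nlinarith
        · simp only [hD]
          nlinarith
      calc (D l) ^ 2 = |D l| ^ 2 := (sq_abs _).symm
        _ ≤ (((l.length : ℝ) + 2) * b) ^ 2 := by gcongr
        _ = _ := by ring
    have hle : ∀ l : List Dir, (max (Y b (event s (l, w)) - ((n + 1 : ℕ) : ℝ)) 0) ^ 2 ≤
        M ^ 2 + (2 * M * D l + b ^ 2 * ((l.length : ℝ) + 2) ^ 2) := by
      intro l
      have h := (hP s (l, w) hs).2.2.2.2.2.1 b hb0
      rw [hwho] at h
      simp only at h
      have e : Y b (event s (l, w)) - ((n + 1 : ℕ) : ℝ) = (Y b s - n) + D l := by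
        rw [h]
        push_cast
        simp only [hD]
        ring
      rw [e]
      have h1 : (max ((Y b s - n) + D l) 0) ^ 2 ≤ (M + D l) ^ 2 := by
        rcases le_total ((Y b s - n) + D l) 0 with h2 | h2
        · rw [max_eq_right h2]
          nlinarith [sq_nonneg (M + D l)]
        · rw [max_eq_left h2]
          have h3 : (Y b s - n) + D l ≤ M + D l := by
            have := le_max_left (Y b s - (n : ℝ)) 0
            rw [hMd]
            linarith
          exact pow_le_pow_left₀ h2 h3 2
      have h2 := hDb l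
      nlinarith
    have hL2 : Integrable (fun l : List Dir => ((l.length : ℝ) + 2) ^ 2) (kids ν).toMeasure ∧
        ∫ l : List Dir, ((l.length : ℝ) + 2) ^ 2 ∂(kids ν).toMeasure = var ν + 9 := by
      have e : (fun l : List Dir => ((l.length : ℝ) + 2) ^ 2) =
          fun l : List Dir => ((3 : ℝ) + ((l.length : ℝ) - 1)) ^ 2 := by
        funext l; ring
      rw [e]
      refine ⟨(hq 3).1, ?_⟩
      rw [(hq 3).2]
      ring
    have hint : Integrable (fun l => M ^ 2 + (2 * M * D l + b ^ 2 * ((l.length : ℝ) + 2) ^ 2))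
        (kids ν).toMeasure :=
      (integrable_const _).add ((hDi.const_mul _).add (hL2.1.const_mul _))
    refine (lint_le ν _ _ hle (fun l => le_trans (sq_nonneg _) (hle l)) hint).trans ?_
    rw [(int_add3 (integrable_const _) (hDi.const_mul _) (hL2.1.const_mul _)).2,
      integral_const_mul, integral_const_mul,
      hL2.2, ← ENNReal.ofReal_add (sq_nonneg _) (by positivity)]
    apply ENNReal.ofReal_le_ofReal
    have h1 : 2 * M * ∫ l, D l ∂(kids ν).toMeasure ≤ 0 :=
      mul_nonpos_of_nonneg_of_nonpos (by positivity) hDm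
    simp only [integral_const, probReal_univ, one_smul]
    linarith
  · intro s c R m hs hR ht hA
    refine core ν _ (meas_F hMe s fun t => (S t - c) ^ 2 + var ν * G R m t) _ fun w => ?_
    set x := s.L.getD (pick s.L w) 0 with hx
    have hwho : ∀ l : List Dir, who s (l, w) = x := fun l => rfl
    have hxA : x ∈ s.A := hs.2.1 x ((hP s ([], w) hs).1)
    have hpm := pot_mean hR x (hA x hxA)
    set g : List Dir → ℝ := fun l => (l.map fun e => pot R (x + stepOf e)).sum with hg
    have hgi := hh fun e => pot R (x + stepOf e)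
    have hgi' : Integrable g (kids ν).toMeasure := hgi.1
    have hle : ∀ l : List Dir, (S (event s (l, w)) - c) ^ 2 + var ν * G R m (event s (l, w)) ≤
        ((S s - c) + ((l.length : ℝ) - 1)) ^ 2 + (var ν * (G R m s - pot R x) + var ν * g l) := by
      intro l
      have h := hP s (l, w) hs
      have h1 := h.2.2.2.1
      have h2 := h.2.2.2.2.2.2 R m hR
      rw [hwho] at h2
      simp only at h1 h2
      rw [h1]
      have h3 : var ν * G R m (event s (l, w)) ≤ var ν * (G R m s - pot R x + g l) :=
        mul_le_mul_of_nonneg_left h2 hvar.le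
      have h4 : (S s + (l.length : ℝ) - 1 - c) ^ 2 = ((S s - c) + ((l.length : ℝ) - 1)) ^ 2 := by
        ring
      rw [h4]
      linarith
    have hG0 : ∀ l : List Dir, 0 ≤ G R m (event s (l, w)) := by
      intro l
      have h := (hP s (l, w) hs).2.2.2.2.1
      have ht' : (event s (l, w)).t ≤ m := by
        rcases h with h | h
        · omega
        · omega
      unfold G
      have h1 : 0 ≤ ((event s (l, w)).L.map (pot R)).sum := by
        apply List.sum_nonneg
        intro y hy
        obtain ⟨z, _, rfl⟩ := List.mem_map.1 hy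
        exact le_max_right _ _
      have h2 : (0 : ℝ) ≤ (m : ℝ) - (event s (l, w)).t := by
        have : ((event s (l, w)).t : ℝ) ≤ m := by exact_mod_cast ht'
        linarith
      positivity
    have hint : Integrable (fun l : List Dir => ((S s - c) + ((l.length : ℝ) - 1)) ^ 2 +
        (var ν * (G R m s - pot R x) + var ν * g l)) (kids ν).toMeasure :=
      (hq _).1.add ((integrable_const _).add (hgi.1.const_mul _))
    refine (lint_le ν _ _ hle (fun l => le_trans ?_ (hle l)) hint).trans ?_
    · have := hG0 l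
      have := hvar.le
      positivity
    rw [(int_add3 (hq _).1 (integrable_const _) (hgi'.const_mul _)).2, (hq _).2,
      integral_const_mul, integral_const_mul]
    apply ENNReal.ofReal_le_ofReal
    have h1 : ∫ l, g l ∂(kids ν).toMeasure = pot R x - 1 := by
      rw [← hpm]
      exact hgi.2
    rw [h1]
    simp only [integral_const, probReal_univ, one_smul]
    apply le_of_eq
    ring

end Pool.Agent.K1H94.BI
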